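import Pool.Agent.Lib.MP_0a3911_co.AS.Asm
import Pool.Agent.Lib.MP_0a3911_co.RG.Main

/-!
# AS-App: the row group

PROOF.  `G = rowGroup L` (a finite group), acting on `Fin n`; it is transitive (`UF.trans` for the family `fam`, see `orbit_rowGroup`
in `RG/Main.lean`).  `n` is odd (`partition` for `⊥`: `m = n`, or `odd_of_pr`), `3 ∣ n` (`partition` with `r = ⊥` or `⊤`: `n = 1` or `n % 6 = 3`;
`n ≠ 1`).  `H` = stabilizer of the point `0` in `G`: `H.index = n` (orbit-stabilizer, `MulAction.index_stabilizer`).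
`Prim H`: `core`: a normal subgroup in the stabilizer of one point is in the stabilizer of every point (transitivity), so trivial (faithful).
`max`: let `H ≤ K`; the relation `r x y ↔ ∃ g ∈ G, k ∈ K, x = g 0, y = g k 0` is an equivalence relation preserved by `G` (or use the
theory of blocks in Mathlib: `MulAction.IsPreprimitive`, `isCoatom_stabilizer_iff_preprimitive`); by `partition_trivial` it is `⊥` or `⊤`:
if it is `⊥` then `K` fixes `0`, `K = H`; if it is `⊤` then `K` is transitive and `K = ⊤` (as `H ≤ K`).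
`almost_simple` gives `N`.  Its orbits give an invariant relation; it is not `⊥` (`N ≠ ⊥`, faithful), so `⊤`: `N` is transitive.
-/

set_option autoImplicit false

namespace Pool.Agent.Lib.MP_0a3911_co.AS

open Pool.Agent.Lib.MP_0a3911_co Pool.Agent.Lib.MP_0a3911_co.RG

private theorem app_inv {n : ℕ} (σ : Equiv.Perm (Fin n)) (x : Fin n) : σ⁻¹ (σ x) = x :=
  σ.symm_apply_apply x

private theorem app_mod {n : ℕ} {L : Fin n → Fin n → Fin n} (hn : 0 < n)
    (hr : ∀ i, Function.Injective (L i)) (hcol : ∀ j, Function.Injective (fun i => L i j))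
    (hP : Pr L) (h1 : n ≠ 1) : n % 6 = 3 := by
  classical
  obtain ⟨b, m, -, hc, hb, -⟩ := partition hn hr hcol hP ⊤ (fun _ _ _ _ _ => trivial)
  have h2 := hc ⟨0, hn⟩
  rw [← cls_card, cls_top] at h2
  rw [← h2] at hb
  exact hb.resolve_left h1

private theorem app_trans {n : ℕ} {L : Fin n → Fin n → Fin n}
    (hr : ∀ i, Function.Injective (L i)) (hcol : ∀ j, Function.Injective (fun i => L i j))
    (hP : Pr L) (x0 : Fin n) (c d : Fin n) : ∃ g : rowGroup L, (g : Equiv.Perm (Fin n)) c = d := by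
  obtain ⟨i, hi⟩ := (uf_of_pr hr hcol hP x0).trans c d
  exact ⟨⟨fam hr x0 i, fam_mem hr x0 i⟩, hi⟩

/-- the relation of a subgroup -/
private def appRel {n : ℕ} {G : Subgroup (Equiv.Perm (Fin n))} (x0 : Fin n)
    (ht : ∀ c d : Fin n, ∃ g : G, (g : Equiv.Perm (Fin n)) c = d) (K : Subgroup G)
    (hK : ∀ g : G, (g : Equiv.Perm (Fin n)) x0 = x0 → g ∈ K) : Setoid (Fin n) where
  r x y := ∃ g k : G, k ∈ K ∧ (g : Equiv.Perm (Fin n)) x0 = x ∧
    ((g * k : G) : Equiv.Perm (Fin n)) x0 = y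
  iseqv := by
    refine ⟨fun x => ?_, ?_, ?_⟩
    · obtain ⟨g, hg⟩ := ht x0 x
      exact ⟨g, 1, K.one_mem, hg, by rw [mul_one]; exact hg⟩
    · rintro x y ⟨g, k, hk, hx, hy⟩
      exact ⟨g * k, k⁻¹, K.inv_mem hk, hy, by rw [mul_inv_cancel_right]; exact hx⟩
    · rintro x y z ⟨g, k, hk, hx, hy⟩ ⟨g', k', hk', hy', hz⟩
      have h1 : (g' : Equiv.Perm (Fin n)) x0 = ((g * k : G) : Equiv.Perm (Fin n)) x0 :=
        hy'.trans hy.symm
      have h2 : (g * k)⁻¹ * g' ∈ K := by
        apply hK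
        rw [Subgroup.coe_mul, Equiv.Perm.mul_apply, h1, Subgroup.coe_inv, app_inv]
      refine ⟨g, k * ((g * k)⁻¹ * g') * k', K.mul_mem (K.mul_mem hk h2) hk', hx, ?_⟩
      rw [show g * (k * ((g * k)⁻¹ * g') * k') = g' * k' by group]
      exact hz

theorem row_almost_simple {n : ℕ} {L : Fin n → Fin n → Fin n} (hn : 0 < n)
    (hr : ∀ i, Function.Injective (L i)) (hcol : ∀ j, Function.Injective (fun i => L i j))
    (hP : Pr L) (h9 : ¬ 9 ∣ n) (h1 : n ≠ 1) (h3 : n ≠ 3) :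
    ∃ N : Subgroup (rowGroup L), N.Normal ∧ IsSimpleGroup N ∧
      (¬ ∀ x ∈ N, ∀ y ∈ N, x * y = y * x) ∧ Subgroup.centralizer (N : Set (rowGroup L)) = ⊥ ∧
      ∀ c c' : Fin n, ∃ g ∈ N, (g : Equiv.Perm (Fin n)) c = c' := by
  classical
  obtain ⟨x0, -⟩ : ∃ x0 : Fin n, x0 = ⟨0, hn⟩ := ⟨_, rfl⟩
  have hmod := app_mod hn hr hcol hP h1
  have ht := app_trans hr hcol hP x0
  obtain ⟨H, hHdef⟩ : ∃ H : Subgroup (rowGroup L), H = MulAction.stabilizer (rowGroup L) x0 :=
    ⟨_, rfl⟩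
  have hH : ∀ g : rowGroup L, g ∈ H ↔ (g : Equiv.Perm (Fin n)) x0 = x0 := by
    intro g
    rw [hHdef, MulAction.mem_stabilizer_iff]
    rfl
  have hidx : H.index = n := by
    rw [hHdef, MulAction.index_stabilizer, ← Nat.card_coe_set_eq]
    exact orbit_rowGroup hr (uf_of_pr hr hcol hP x0) x0
  have hfaith : ∀ N : Subgroup (rowGroup L), (∀ g ∈ N, ∀ x : Fin n,
      (g : Equiv.Perm (Fin n)) x = x) → N = ⊥ := by
    intro N hN
    rw [Subgroup.eq_bot_iff_forall]
    intro g hg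
    apply Subtype.ext
    apply Equiv.ext
    intro x
    rw [hN g hg x]
    rfl
  have hprim : Prim H := by
    refine ⟨fun K hK => ?_, fun N hN hNH => ?_⟩
    · have hK' : ∀ g : rowGroup L, (g : Equiv.Perm (Fin n)) x0 = x0 → g ∈ K :=
        fun g hg => hK ((hH g).2 hg)
      rcases partition_trivial hn hr hcol hP (appRel x0 ht K hK') (by
        rintro τ hτ x y ⟨g, k, hk, hx, hy⟩
        refine ⟨⟨τ, hτ⟩ * g, k, hk, ?_, ?_⟩
        · rw [Subgroup.coe_mul, Equiv.Perm.mul_apply, hx]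
        · rw [mul_assoc, Subgroup.coe_mul, Equiv.Perm.mul_apply, hy]) h9 with h | h
      · left
        refine le_antisymm (fun k hk => (hH k).2 ?_) hK
        have h2 : (appRel x0 ht K hK') x0 ((k : Equiv.Perm (Fin n)) x0) :=
          ⟨1, k, hk, rfl, by rw [one_mul]⟩
        rw [h, Setoid.bot_def] at h2
        exact h2.symm
      · right
        rw [Subgroup.eq_top_iff']
        intro g
        have h2 : (appRel x0 ht K hK') x0 ((g : Equiv.Perm (Fin n)) x0) := by
          rw [h]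
          exact trivial
        obtain ⟨g', k, hk, e1, e2⟩ := h2
        have h4 : g' ∈ K := hK' g' e1
        have h5 : (g' * k)⁻¹ * g ∈ K := by
          apply hK'
          rw [Subgroup.coe_mul, Equiv.Perm.mul_apply, ← e2, Subgroup.coe_inv,
            app_inv]
        have h6 := K.mul_mem (K.mul_mem h4 hk) h5
        rwa [mul_inv_cancel_left] at h6
    · refine hfaith N fun g hg x => ?_
      obtain ⟨a, ha⟩ := ht x0 x
      have h2 := (hH _).1 (hNH (hN.conj_mem g hg a⁻¹))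
      rw [inv_inv, Subgroup.coe_mul, Subgroup.coe_mul, Subgroup.coe_inv, Equiv.Perm.mul_apply,
        Equiv.Perm.mul_apply, ha, Equiv.Perm.inv_eq_iff_eq, ha] at h2
      exact h2
  obtain ⟨N, hN1, hN2, hN3, hN4⟩ := almost_simple hprim (by rw [hidx]; omega) (by rw [hidx]; omega)
    (by rw [hidx]; exact h9) (by rw [hidx]; exact h3)
  refine ⟨N, hN1, hN2, hN3, hN4, ?_⟩
  have hNb : N ≠ ⊥ := by
    intro h
    apply hN3
    intro x hx y hy
    rw [h, Subgroup.mem_bot] at hx hy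
    rw [hx, hy]
  let r : Setoid (Fin n) :=
    { r := fun x y => ∃ g ∈ N, (g : Equiv.Perm (Fin n)) x = y
      iseqv := by
        refine ⟨fun x => ⟨1, N.one_mem, rfl⟩, ?_, ?_⟩
        · rintro x y ⟨g, hg, rfl⟩
          refine ⟨g⁻¹, N.inv_mem hg, ?_⟩
          rw [Subgroup.coe_inv, app_inv]
        · rintro x y z ⟨g, hg, rfl⟩ ⟨g', hg', rfl⟩
          exact ⟨g' * g, N.mul_mem hg' hg, rfl⟩ }
  rcases partition_trivial hn hr hcol hP r (by
    rintro τ hτ x y ⟨g, hg, rfl⟩
    refine ⟨⟨τ, hτ⟩ * g * ⟨τ, hτ⟩⁻¹, hN1.conj_mem g hg _, ?_⟩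
    show τ ((g : Equiv.Perm (Fin n)) (τ⁻¹ (τ x))) = τ ((g : Equiv.Perm (Fin n)) x)
    rw [app_inv]) h9 with h | h
  · exfalso
    apply hNb
    refine hfaith N fun g hg x => ?_
    have h2 : r x ((g : Equiv.Perm (Fin n)) x) := ⟨g, hg, rfl⟩
    rw [h, Setoid.bot_def] at h2
    exact h2.symm
  · intro c c'
    have h2 : r c c' := by
      rw [h]
      exact trivial
    exact h2

end Pool.Agent.Lib.MP_0a3911_co.AS
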