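import Pool.Agent.Lib.MP_0a3911_co.AS.Defs

/-!
# AS-Conj: the conjugates of a minimal `T`

PROOF.  `exists_minIn`: finitely many subgroups; `N` itself is normalised by `N`; take one of least cardinality.
`mem_cj`: direct.  `cj_min`: `N` is normal, so `g⁻¹ N g = N`; conjugation is an order isomorphism of the subgroups.
`cj_comm`: `T ⊓ T'` is normalised by `N`, so it is `⊥` or `T`, and `⊥` or `T'`; as `T ≠ T'` it is `⊥`.  For `x ∈ T`, `y ∈ T'` the commutator
`x y x⁻¹ y⁻¹` is in `T` (`y ∈ N`, `T` normalised by `N`) and in `T'`, so it is `1`.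
`sup_cj`: the supremum is normal in `G`, contains `T = cj 1 T ≠ ⊥`, is contained in `N`.
`sup_cen`: every `cj g T` is `T` or contained in `cen N T` (`cj_comm`), so `N = ⨆ g, cj g T ≤ T ⊔ cen N T ≤ N`.
`cj_of_mem`: `NormBy`.  `cj_H`: `g = a h` with `a ∈ N`, `h ∈ H` (`Subgroup.mul_normal`, `N` normal), `cj g T = cj a (cj h T) = cj h T` by
`cj_min` and `cj_of_mem`.  `cj_cen`: direct (`N` is normal).
-/

set_option autoImplicit false

namespace Pool.Agent.Lib.MP_0a3911_co.AS

variable {G : Type*} [Group G]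

theorem mem_cj {g x : G} {T : Subgroup G} : x ∈ cj g T ↔ g⁻¹ * x * g ∈ T := by
  unfold cj
  rw [Subgroup.mem_map]
  constructor
  · rintro ⟨t, ht, rfl⟩
    have : g⁻¹ * ((MulAut.conj g).toMonoidHom t) * g = t := by
      show g⁻¹ * (g * t * g⁻¹) * g = t
      group
    rw [this]
    exact ht
  · intro h
    refine ⟨g⁻¹ * x * g, h, ?_⟩
    show g * (g⁻¹ * x * g) * g⁻¹ = x
    group

theorem cj_mul (g h : G) (T : Subgroup G) : cj (g * h) T = cj g (cj h T) := by
  ext x
  rw [mem_cj, mem_cj, mem_cj]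
  have : (g * h)⁻¹ * x * (g * h) = h⁻¹ * (g⁻¹ * x * g) * h := by group
  rw [this]

theorem card_cj (g : G) (T : Subgroup G) : Nat.card (cj g T) = Nat.card T := by
  unfold cj
  exact Subgroup.card_map_of_injective (f := (MulAut.conj g).toMonoidHom) (MulAut.conj g).injective

private theorem Conj_one (T : Subgroup G) : cj 1 T = T := by
  ext x
  rw [mem_cj]
  simp

private theorem Conj_mono {T K : Subgroup G} (g : G) (h : T ≤ K) : cj g T ≤ cj g K := by
  intro x hx
  rw [mem_cj] at hx ⊢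
  exact h hx

private theorem Conj_inv (g : G) (T : Subgroup G) : cj g⁻¹ (cj g T) = T := by
  rw [← cj_mul, inv_mul_cancel, Conj_one]

private theorem Conj_inv' (g : G) (T : Subgroup G) : cj g (cj g⁻¹ T) = T := by
  rw [← cj_mul, mul_inv_cancel, Conj_one]

private theorem Conj_normal {N : Subgroup G} (hN : N.Normal) (g : G) : cj g N = N := by
  ext x
  rw [mem_cj]
  constructor
  · intro h
    have := hN.conj_mem _ h g
    have e : g * (g⁻¹ * x * g) * g⁻¹ = x := by group
    rwa [e] at this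
  · intro h
    have := hN.conj_mem _ h g⁻¹
    rwa [inv_inv] at this

private theorem Conj_bot (g : G) : cj g (⊥ : Subgroup G) = ⊥ := by
  unfold cj
  exact Subgroup.map_bot _

private theorem Conj_normBy {N T : Subgroup G} (hN : N.Normal) (h : NormBy N T) (g : G) :
    NormBy N (cj g T) := by
  intro a ha t ht
  rw [mem_cj] at ht ⊢
  have h1 : g⁻¹ * a * g ∈ N := by
    have := hN.conj_mem _ ha g⁻¹
    rwa [inv_inv] at this
  have h2 := h _ h1 _ ht
  have e : g⁻¹ * (a * t * a⁻¹) * g = g⁻¹ * a * g * (g⁻¹ * t * g) * (g⁻¹ * a * g)⁻¹ := by group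
  rw [e]
  exact h2

theorem exists_minIn [Finite G] {N : Subgroup G} (hN : N ≠ ⊥) : ∃ T, MinIn N T := by
  classical
  have hne : {T : Subgroup G | T ≤ N ∧ T ≠ ⊥ ∧ NormBy N T}.Nonempty :=
    ⟨N, le_refl _, hN, fun g hg t ht => N.mul_mem (N.mul_mem hg ht) (N.inv_mem hg)⟩
  obtain ⟨T, hT, hmin⟩ := Set.exists_min_image {T : Subgroup G | T ≤ N ∧ T ≠ ⊥ ∧ NormBy N T}
    (fun T => Nat.card T) (Set.toFinite _) hne
  refine ⟨T, hT.1, hT.2.1, hT.2.2, fun K hK hKN => ?_⟩
  by_cases hb : K = ⊥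
  · exact Or.inl hb
  · right
    have h1 : Nat.card T ≤ Nat.card K := hmin K ⟨hK.trans hT.1, hb, hKN⟩
    exact Subgroup.eq_of_le_of_card_ge hK h1

theorem cj_min {N T : Subgroup G} (hN : N.Normal) (h : MinIn N T) (g : G) :
    MinIn N (cj g T) := by
  refine ⟨?_, ?_, Conj_normBy hN h.2.2.1 g, fun K hK hKN => ?_⟩
  · have := Conj_mono g h.1
    rwa [Conj_normal hN g] at this
  · intro hb
    apply h.2.1
    have := Conj_inv g T
    rw [hb, Conj_bot] at this
    exact this.symm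
  · have h1 : cj g⁻¹ K ≤ T := by
      have := Conj_mono g⁻¹ hK
      rwa [Conj_inv] at this
    rcases h.2.2.2 _ h1 (Conj_normBy hN hKN g⁻¹) with h2 | h2
    · left
      have := Conj_inv' g K
      rw [h2, Conj_bot] at this
      exact this.symm
    · right
      have := Conj_inv' g K
      rw [h2] at this
      exact this.symm

theorem cj_comm {N T T' : Subgroup G} (h : MinIn N T) (h' : MinIn N T') (hne : T ≠ T') :
    T ⊓ T' = ⊥ ∧ T ≤ cen N T' := by
  have hnb : NormBy N (T ⊓ T') := fun g hg t ht => ⟨h.2.2.1 g hg t ht.1, h'.2.2.1 g hg t ht.2⟩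
  have hb : T ⊓ T' = ⊥ := by
    rcases h.2.2.2 _ inf_le_left hnb with h1 | h1
    · exact h1
    · rcases h'.2.2.2 _ inf_le_right hnb with h2 | h2
      · exact h2
      · exact absurd (h1.symm.trans h2) hne
  refine ⟨hb, fun x hx => ⟨h.1 hx, ?_⟩⟩
  show x ∈ Subgroup.centralizer (T' : Set G)
  rw [Subgroup.mem_centralizer_iff]
  intro y hy
  have hy' : y ∈ T' := hy
  have h1 : x * y * x⁻¹ * y⁻¹ ∈ T := by
    have e : x * y * x⁻¹ * y⁻¹ = x * (y * x⁻¹ * y⁻¹) := by group
    rw [e]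
    exact T.mul_mem hx (h.2.2.1 y (h'.1 hy') _ (T.inv_mem hx))
  have h2 : x * y * x⁻¹ * y⁻¹ ∈ T' :=
    T'.mul_mem (h'.2.2.1 x (h.1 hx) _ hy') (T'.inv_mem hy')
  have h3 : x * y * x⁻¹ * y⁻¹ ∈ T ⊓ T' := ⟨h1, h2⟩
  rw [hb, Subgroup.mem_bot] at h3
  have h4 : x * y = y * x := by
    have := mul_inv_eq_one.mp h3
    rw [mul_inv_eq_iff_eq_mul] at this
    exact this
  exact h4.symm

theorem sup_cj {N T : Subgroup G} (hN : MinNormal N) (h : MinIn N T) : ⨆ g : G, cj g T = N := by
  have hle : ⨆ g : G, cj g T ≤ N := iSup_le fun g => (cj_min hN.1 h g).1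
  have hnorm : (⨆ g : G, cj g T).Normal := by
    constructor
    intro x hx a
    have hcl : cj a (⨆ g : G, cj g T) = ⨆ g : G, cj (a * g) T := by
      have : cj a (⨆ g : G, cj g T) = ⨆ g : G, cj a (cj g T) := by
        unfold cj
        rw [Subgroup.map_iSup]
      rw [this]
      exact iSup_congr fun g => (cj_mul a g T).symm
    have h1 : a * x * a⁻¹ ∈ cj a (⨆ g : G, cj g T) := by
      rw [mem_cj]
      have e : a⁻¹ * (a * x * a⁻¹) * a = x := by group
      rw [e]
      exact hx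
    rw [hcl] at h1
    exact (iSup_le fun g => le_iSup (fun g => cj g T) (a * g)) h1
  rcases hN.2.2 _ hnorm hle with h1 | h1
  · exfalso
    apply h.2.1
    have h2 : cj 1 T ≤ ⨆ g : G, cj g T := le_iSup (fun g => cj g T) 1
    rw [h1, Conj_one] at h2
    exact le_bot_iff.mp h2
  · exact h1

theorem sup_cen {N T : Subgroup G} (hN : MinNormal N) (h : MinIn N T) : T ⊔ cen N T = N := by
  apply le_antisymm
  · exact sup_le h.1 inf_le_left
  · rw [← sup_cj hN h]
    apply iSup_le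
    intro g
    by_cases hg : cj g T = T
    · rw [hg]
      exact le_sup_left
    · have h1 := (cj_comm (cj_min hN.1 h g) h hg).2
      rw [sup_cj hN h]
      exact h1.trans le_sup_right

theorem cj_of_mem {N T : Subgroup G} (h : MinIn N T) {g : G} (hg : g ∈ N) : cj g T = T := by
  ext x
  rw [mem_cj]
  constructor
  · intro hx
    have := h.2.2.1 g hg _ hx
    have e : g * (g⁻¹ * x * g) * g⁻¹ = x := by group
    rwa [e] at this
  · intro hx
    have := h.2.2.1 g⁻¹ (N.inv_mem hg) _ hx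
    rwa [inv_inv] at this

open scoped Pointwise in
private theorem Conj_split {H N : Subgroup G} (hN : N.Normal) (hNH : N ⊔ H = ⊤) (g : G) :
    ∃ n ∈ N, ∃ a ∈ H, n * a = g := by
  have hg : g ∈ N ⊔ H := by
    rw [hNH]
    trivial
  have hg' : g ∈ (N : Set G) * (H : Set G) := by
    rw [← Subgroup.normal_mul N H]
    exact hg
  obtain ⟨n, hn, a, ha, e⟩ := Set.mem_mul.mp hg'
  exact ⟨n, hn, a, ha, e⟩

theorem cj_H {H N T : Subgroup G} (hN : N.Normal) (hNH : N ⊔ H = ⊤) (h : MinIn N T) (g : G) :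
    ∃ a ∈ H, cj g T = cj a T := by
  obtain ⟨n, hn, a, ha, rfl⟩ := Conj_split hN hNH g
  exact ⟨a, ha, by rw [cj_mul, cj_of_mem (cj_min hN h a) hn]⟩

theorem cj_cen {N T : Subgroup G} (hN : N.Normal) (g : G) : cj g (cen N T) = cen N (cj g T) := by
  ext x
  rw [mem_cj]
  unfold cen
  rw [Subgroup.mem_inf, Subgroup.mem_inf, Subgroup.mem_centralizer_iff, Subgroup.mem_centralizer_iff]
  have hNx : g⁻¹ * x * g ∈ N ↔ x ∈ N := by
    rw [← mem_cj, Conj_normal hN g]
  rw [hNx]
  apply and_congr_right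
  intro _
  constructor
  · intro h y hy
    have hy' : g⁻¹ * y * g ∈ T := mem_cj.mp hy
    have h1 := h _ hy'
    have e1 : g⁻¹ * y * g * (g⁻¹ * x * g) = g⁻¹ * (y * x) * g := by group
    have e2 : g⁻¹ * x * g * (g⁻¹ * y * g) = g⁻¹ * (x * y) * g := by group
    rw [e1, e2] at h1
    exact mul_left_cancel (mul_right_cancel h1)
  · intro h y hy
    have hy' : g * y * g⁻¹ ∈ cj g T := by
      rw [mem_cj]
      have e : g⁻¹ * (g * y * g⁻¹) * g = y := by group
      rw [e]
      exact hy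
    have h1 := h _ hy'
    have e1 : y * (g⁻¹ * x * g) = g⁻¹ * (g * y * g⁻¹ * x) * g := by group
    have e2 : g⁻¹ * x * g * y = g⁻¹ * (x * (g * y * g⁻¹)) * g := by group
    rw [e1, e2, h1]

end Pool.Agent.Lib.MP_0a3911_co.AS
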