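import Pool.Agent.Lib.MP_0a3911_co.AS.Idx
import Pool.Agent.Lib.MP_0a3911_co.AS.Conj

/-!
# AS-CsA: the product case

`R S = (N ⊓ H) ⊔ cen N S` for the conjugates `S` of `T`.
PROOF.  Let `𝒯` be the finite set of the conjugates `cj g T`.  (1) If `𝒯 = {T}` then `T` is normal in `G`, so `T = N` (`MinNormal`), a
contradiction; so `k = |𝒯| ≥ 2`.  (2) For every finite set `𝒮 ⊆ 𝒯` the subgroup `D(𝒮) = N ⊓ ⨅ S ∈ 𝒮, R S` has
`D(𝒮).relIndex N = ∏ S ∈ 𝒮, (R S).relIndex N`: induction on `𝒮`; for `S' ∈ 𝒯`, `S' ∉ 𝒮`, apply `idx_inf` with `A = D(𝒮)`, `B = R S'`,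
`T = S'`, `C = cen N S'`: `S' ≤ D(𝒮)` as `S' ≤ cen N S ≤ R S` for `S ∈ 𝒮` (`cj_comm`), `cen N S' ≤ R S'`, and
`S' ⊔ cen N S' = N` (`sup_cen`).  (3) `(R S).relIndex N` is the same number `s` for all `S ∈ 𝒯`: `S = cj a T` with `a ∈ H` (`cj_H`) and
`R (cj a T) = cj a (R T)` (`cj_cen`, `N ⊓ H` is normalised by `a ∈ H`, `N` by all).  So `(N ⊓ H).relIndex N = s ^ k`; and
`(N ⊓ H).relIndex N = H.index` (`idx_prim`).  `3 ∣ s ^ k` gives `3 ∣ s`, `k ≥ 2` gives `9 ∣ s ^ k`.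
-/

set_option autoImplicit false

namespace Pool.Agent.Lib.MP_0a3911_co.AS

variable {G : Type*} [Group G]

private theorem CsA_card [Finite G] {A N : Subgroup G} (h : A ≤ N) :
    Nat.card A * A.relIndex N = Nat.card N := by
  have h1 := Subgroup.relIndex_mul_relIndex (⊥ : Subgroup G) A N bot_le h
  rw [Subgroup.relIndex_bot_left, Subgroup.relIndex_bot_left] at h1
  exact h1

private theorem CsA_rel [Finite G] {A B N : Subgroup G} (hA : A ≤ N) (hB : B ≤ N)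
    (h : Nat.card A = Nat.card B) : A.relIndex N = B.relIndex N := by
  have h1 := CsA_card hA
  have h2 := CsA_card hB
  rw [h, ← h2] at h1
  exact Nat.eq_of_mul_eq_mul_left Nat.card_pos h1

private theorem CsA_one (T : Subgroup G) : cj 1 T = T := by
  ext x
  rw [mem_cj]
  simp

private theorem CsA_le {H N S : Subgroup G} : (N ⊓ H) ⊔ cen N S ≤ N :=
  sup_le inf_le_left inf_le_left

private theorem CsA_prod [Finite G] {H N T : Subgroup G} (hN : MinNormal N) (hT : MinIn N T)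
    (X : Finset (Subgroup G)) (hX : ∀ S ∈ X, ∃ g : G, S = cj g T) :
    (N ⊓ X.inf fun S => (N ⊓ H) ⊔ cen N S).relIndex N =
      ∏ S ∈ X, ((N ⊓ H) ⊔ cen N S).relIndex N := by
  classical
  induction X using Finset.induction_on with
  | empty =>
    rw [Finset.inf_empty, inf_top_eq, Finset.prod_empty, Subgroup.relIndex_self]
  | insert S' X hS' ih =>
    obtain ⟨g', hg'⟩ := hX S' (Finset.mem_insert_self _ _)
    have hm' : MinIn N S' := hg' ▸ cj_min hN.1 hT g'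
    have e : (N ⊓ (insert S' X).inf fun S => (N ⊓ H) ⊔ cen N S) =
        (N ⊓ X.inf fun S => (N ⊓ H) ⊔ cen N S) ⊓ ((N ⊓ H) ⊔ cen N S') := by
      rw [Finset.inf_insert, inf_comm ((N ⊓ H) ⊔ cen N S'), inf_assoc]
    have hA : S' ≤ N ⊓ X.inf fun S => (N ⊓ H) ⊔ cen N S := by
      refine le_inf hm'.1 (Finset.le_inf fun S hS => ?_)
      obtain ⟨g, hg⟩ := hX S (Finset.mem_insert_of_mem hS)
      have hm : MinIn N S := hg ▸ cj_min hN.1 hT g
      have hne : S' ≠ S := by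
        rintro rfl
        exact hS' hS
      exact (cj_comm hm' hm hne).2.trans le_sup_right
    rw [e, idx_inf hA (le_sup_right : cen N S' ≤ (N ⊓ H) ⊔ cen N S') inf_le_left CsA_le
      (sup_cen hN hm') hm'.2.2.1, ih fun S hS => hX S (Finset.mem_insert_of_mem hS),
      Finset.prod_insert hS', mul_comm]

private theorem CsA_conj [Finite G] {H N T : Subgroup G} (hN : N.Normal) {a : G} (ha : a ∈ H) :
    ((N ⊓ H) ⊔ cen N (cj a T)).relIndex N = ((N ⊓ H) ⊔ cen N T).relIndex N := by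
  have h1 : cj a (N ⊓ H) = N ⊓ H := by
    ext x
    rw [mem_cj, Subgroup.mem_inf, Subgroup.mem_inf]
    have e : a * (a⁻¹ * x * a) * a⁻¹ = x := by group
    constructor
    · rintro ⟨h1, h2⟩
      have h3 := hN.conj_mem _ h1 a
      have h4 := H.mul_mem (H.mul_mem ha h2) (H.inv_mem ha)
      rw [e] at h3 h4
      exact ⟨h3, h4⟩
    · rintro ⟨h1, h2⟩
      have h3 := hN.conj_mem _ h1 a⁻¹
      rw [inv_inv] at h3
      exact ⟨h3, H.mul_mem (H.mul_mem (H.inv_mem ha) h2) ha⟩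
  have h2 : (N ⊓ H) ⊔ cen N (cj a T) = cj a ((N ⊓ H) ⊔ cen N T) := by
    have h0 : cj a ((N ⊓ H) ⊔ cen N T) = cj a (N ⊓ H) ⊔ cj a (cen N T) := by
      unfold cj
      exact Subgroup.map_sup _ _ _
    rw [h0, cj_cen hN, h1]
  have h3 : Nat.card ((N ⊓ H) ⊔ cen N (cj a T) : Subgroup G) =
      Nat.card ((N ⊓ H) ⊔ cen N T : Subgroup G) := by
    rw [h2]
    exact card_cj a _
  exact CsA_rel CsA_le CsA_le h3

theorem caseA [Finite G] {H N T : Subgroup G} (hN : MinNormal N) (hNH : N ⊔ H = ⊤)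
    (hT : MinIn N T) (hne : T ≠ N)
    (hD : ∀ x ∈ N, (∀ g : G, x ∈ (N ⊓ H) ⊔ cen N (cj g T)) → x ∈ H) (h3 : 3 ∣ H.index) :
    9 ∣ H.index := by
  classical
  obtain ⟨X, hX⟩ : ∃ X : Finset (Subgroup G), ∀ S, S ∈ X ↔ ∃ g : G, S = cj g T := by
    refine ⟨(Set.finite_range fun g : G => cj g T).toFinset, fun S => ?_⟩
    rw [Set.Finite.mem_toFinset]
    constructor
    · rintro ⟨g, hg⟩
      exact ⟨g, hg.symm⟩
    · rintro ⟨g, hg⟩
      exact ⟨g, hg.symm⟩
  have h1 := CsA_prod (H := H) hN hT X fun S hS => (hX S).mp hS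
  have h2 : (N ⊓ X.inf fun S => (N ⊓ H) ⊔ cen N S) = N ⊓ H := by
    apply le_antisymm
    · intro x hx
      have hxN := (Subgroup.mem_inf.mp hx).1
      have hxX := (Subgroup.mem_inf.mp hx).2
      refine Subgroup.mem_inf.mpr ⟨hxN, hD x hxN fun g => ?_⟩
      have h4 : (X.inf fun S => (N ⊓ H) ⊔ cen N S) ≤ (N ⊓ H) ⊔ cen N (cj g T) :=
        Finset.inf_le (f := fun S => (N ⊓ H) ⊔ cen N S) ((hX _).mpr ⟨g, rfl⟩)
      exact h4 hxX
    · exact le_inf inf_le_left (Finset.le_inf fun S _ => le_sup_left)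
  rw [h2] at h1
  have h4 : ∀ S ∈ X, ((N ⊓ H) ⊔ cen N S).relIndex N = ((N ⊓ H) ⊔ cen N T).relIndex N := by
    intro S hS
    obtain ⟨g, hg⟩ := (hX S).mp hS
    obtain ⟨a, ha, he⟩ := cj_H hN.1 hNH hT g
    rw [hg, he]
    exact CsA_conj hN.1 ha
  rw [Finset.prod_congr rfl h4, Finset.prod_const] at h1
  have h5 : (N ⊓ H).relIndex N = H.index := by
    have h6 := CsA_card (inf_le_left : N ⊓ H ≤ N)
    have h7 := idx_prim hN.1 hNH
    rw [h7, mul_comm] at h6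
    exact Nat.eq_of_mul_eq_mul_right Nat.card_pos h6
  rw [h5] at h1
  have hk : 2 ≤ X.card := by
    have hTX : T ∈ X := (hX T).mpr ⟨1, (CsA_one T).symm⟩
    by_contra hcon
    have hall : ∀ g : G, cj g T = T := by
      intro g
      have hle : X.card ≤ 1 := by omega
      exact Finset.card_le_one.mp hle _ ((hX _).mpr ⟨g, rfl⟩) _ hTX
    apply hne
    rw [← sup_cj hN hT]
    exact (le_antisymm (iSup_le fun g => (hall g).le) (by
      have := le_iSup (fun g : G => cj g T) 1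
      rw [CsA_one] at this
      exact this)).symm
  rw [h1] at h3 ⊢
  have h6 : 3 ∣ ((N ⊓ H) ⊔ cen N T).relIndex N := Nat.prime_three.dvd_of_dvd_pow h3
  have h7 : 3 ^ 2 ∣ (((N ⊓ H) ⊔ cen N T).relIndex N) ^ 2 := pow_dvd_pow_of_dvd h6 2
  exact h7.trans (pow_dvd_pow _ hk)

end Pool.Agent.Lib.MP_0a3911_co.AS
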