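import Pool.Agent.Lib.MP_0a3911_co.AS.Defs

/-!
# AS-Idx: orders and indices

PROOF of `idx_prim`.  `[N ⊔ H : N] = [H : N ⊓ H]` (`Subgroup.relIndex_sup_right` or the second isomorphism theorem), so
`|G| |N ⊓ H| = |N| |H|`, and `|G| = |H| * H.index`.
PROOF of `card_sup`.  `A` is normal in `A ⊔ B` as it is normalised by `A` and `B`; `|A ⊔ B| |A ⊓ B| = |A| |B|` (for instance
`Subgroup.mul_normal`-type facts: `A ⊔ B = A B` as a set, or the previous formula in the group `A ⊔ B`).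
PROOF of `idx_inf`.  Every `x ∈ N` is `t c` with `t ∈ T ≤ A`, `c ∈ C ≤ B` (`T` is normalised by `N`, so `T ⊔ C = T C`).  So
`N = A B`, and `A → N ⧸ B`-type counting: `B.relIndex N = (A ⊓ B).relIndex A`, and
`(A ⊓ B).relIndex N = (A ⊓ B).relIndex A * A.relIndex N` (`relIndex_mul_relIndex`).
-/

set_option autoImplicit false

namespace Pool.Agent.Lib.MP_0a3911_co.AS

variable {G : Type*} [Group G]

private theorem idx_prod {A B : Subgroup G} (h : NormBy B A) {x : G} (hx : x ∈ A ⊔ B) :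
    ∃ a ∈ A, ∃ b ∈ B, a * b = x := by
  let P : Subgroup G :=
    { carrier := {x | ∃ a ∈ A, ∃ b ∈ B, a * b = x}
      mul_mem' := by
        rintro _ _ ⟨a, ha, b, hb, rfl⟩ ⟨a', ha', b', hb', rfl⟩
        exact ⟨a * (b * a' * b⁻¹), A.mul_mem ha (h b hb a' ha'), b * b', B.mul_mem hb hb', by group⟩
      one_mem' := ⟨1, A.one_mem, 1, B.one_mem, by group⟩
      inv_mem' := by
        rintro _ ⟨a, ha, b, hb, rfl⟩
        exact ⟨b⁻¹ * a⁻¹ * b⁻¹⁻¹, h b⁻¹ (B.inv_mem hb) a⁻¹ (A.inv_mem ha), b⁻¹, B.inv_mem hb, by group⟩ }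
  have hP : A ⊔ B ≤ P := sup_le (fun a ha => ⟨a, ha, 1, B.one_mem, by group⟩)
    (fun b hb => ⟨1, A.one_mem, b, hb, by group⟩)
  exact hP hx

private theorem idx_rel {N A B : Subgroup G} (hA : A ≤ N)
    (h : ∀ x ∈ N, ∃ a ∈ A, ∃ b ∈ B, a * b = x) : B.relIndex N = B.relIndex A := by
  unfold Subgroup.relIndex Subgroup.index
  refine (Nat.card_congr (Equiv.ofBijective (Subgroup.quotientSubgroupOfEmbeddingOfLE B hA)
    ⟨(Subgroup.quotientSubgroupOfEmbeddingOfLE B hA).injective, ?_⟩)).symm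
  intro q
  induction q using QuotientGroup.induction_on with
  | H x =>
    obtain ⟨a, ha, b, hb, hab⟩ := h x.1 x.2
    refine ⟨QuotientGroup.mk (⟨a, ha⟩ : A), ?_⟩
    rw [Subgroup.quotientSubgroupOfEmbeddingOfLE_apply_mk, QuotientGroup.eq]
    rw [Subgroup.mem_subgroupOf]
    have h1 : ((Subgroup.inclusion hA ⟨a, ha⟩)⁻¹ * x : N).1 = b := by
      show a⁻¹ * x.1 = b
      rw [← hab]
      group
    rw [h1]
    exact hb

private theorem idx_card [Finite G] (A B : Subgroup G) :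
    Nat.card A = B.relIndex A * Nat.card (B ⊓ A : Subgroup G) := by
  have h := (B.subgroupOf A).index_mul_card
  rw [← h]
  unfold Subgroup.relIndex
  congr 1
  rw [← Subgroup.inf_subgroupOf_right]
  exact Nat.card_congr (Subgroup.subgroupOfEquivOfLe (inf_le_right : B ⊓ A ≤ A)).toEquiv

theorem idx_prim [Finite G] {N H : Subgroup G} (hN : N.Normal) (h : N ⊔ H = ⊤) :
    Nat.card N = H.index * Nat.card (N ⊓ H : Subgroup G) := by
  have h1 : ∀ x ∈ (⊤ : Subgroup G), ∃ a ∈ N, ∃ b ∈ H, a * b = x := by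
    intro x hx
    rw [← h] at hx
    exact idx_prod (fun g _ t ht => hN.conj_mem t ht g) hx
  have h2 := idx_rel (le_top : N ≤ ⊤) h1
  rw [Subgroup.relIndex_top_right] at h2
  rw [h2, inf_comm]
  exact idx_card N H

theorem card_sup [Finite G] {A B : Subgroup G} (h : NormBy B A) :
    Nat.card (A ⊔ B : Subgroup G) * Nat.card (A ⊓ B : Subgroup G) = Nat.card A * Nat.card B := by
  have h1 : B.relIndex (A ⊔ B) = B.relIndex A :=
    idx_rel le_sup_left (fun x hx => idx_prod h hx)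
  have h2 := idx_card (A ⊔ B) B
  have h3 := idx_card A B
  rw [inf_eq_left.2 (le_sup_right : B ≤ A ⊔ B), h1] at h2
  rw [h2, h3, inf_comm B A]
  ring

theorem idx_inf [Finite G] {N A B T C : Subgroup G} (hTA : T ≤ A) (hCB : C ≤ B) (hA : A ≤ N)
    (hB : B ≤ N) (h : T ⊔ C = N) (hT : NormBy N T) :
    (A ⊓ B).relIndex N = A.relIndex N * B.relIndex N := by
  have hC : C ≤ N := hCB.trans hB
  have h1 : ∀ x ∈ N, ∃ a ∈ A, ∃ b ∈ B, a * b = x := by
    intro x hx
    rw [← h] at hx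
    obtain ⟨a, ha, b, hb, hab⟩ := idx_prod (fun g hg t ht => hT g (hC hg) t ht) hx
    exact ⟨a, hTA ha, b, hCB hb, hab⟩
  have h2 := idx_rel hA h1
  have h3 := Subgroup.relIndex_mul_relIndex (A ⊓ B) A N inf_le_left hA
  rw [← h3, Subgroup.inf_relIndex_left, h2, mul_comm]

end Pool.Agent.Lib.MP_0a3911_co.AS
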