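import Pool.Agent.Lib.MP_0a3911_co.AS.Tr
import Pool.Agent.Lib.MP_0a3911_co.AS.Idx
import Pool.Agent.Lib.MP_0a3911_co.AS.Conj

/-!
# AS-CsB: the diagonal case

PROOF.  `T ⊓ H` is normalised by `N ⊓ H` and centralized by `cen N T`, so by `hD 1` (`cj 1 T = T`) it is normalised by `N`; so it is `⊥` or
`T` (`MinIn`).  If it is `T`: `T ≤ H`, and all `cj g T = cj a T` (`a ∈ H`, `cj_H`) are in `H`, so `N = ⨆ cj g T ≤ H`, so `N = ⊥` (`core`), a
contradiction.  So `T ⊓ H = ⊥`, `|T ⊔ (N ⊓ H)| = |T| |N ⊓ H|` (`card_sup`) divides `|N| = H.index * |N ⊓ H|` (`idx_prim`), so `|T| ∣ H.index`;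
so `2 ∤ |T|`, `9 ∤ |T|`.
If `3 ∤ |T|`: `|N|` divides a power of `|T|` (`N` is the supremum of finitely many subgroups `cj g T`, each normalised by `N`, of order
`|T|`: `card_sup`, `card_cj`), so `3 ∤ |N|`, but `3 ∣ H.index ∣ |N|`.
If `3 ∣ |T|`: `tr_min` with `S = N` gives `|T| = 3`, so `T` is commutative, `T ≤ cen N T`, so `cen N T = N` (`sup_cen`), so `T ≤ centralizer N`
(elements of `N` commute with those of `T`), so `T = ⊥` (`hC`), a contradiction.
-/

set_option autoImplicit false

namespace Pool.Agent.Lib.MP_0a3911_co.AS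

variable {G : Type*} [Group G]

private theorem csb_one (T : Subgroup G) : cj 1 T = T := by
  ext x
  rw [mem_cj]
  simp

/-- the elements which normalise `D` -/
private def csbNz (D : Subgroup G) : Subgroup G where
  carrier := {g | (∀ t ∈ D, g * t * g⁻¹ ∈ D) ∧ ∀ t ∈ D, g⁻¹ * t * g ∈ D}
  mul_mem' := by
    rintro a b ⟨ha, ha'⟩ ⟨hb, hb'⟩
    refine ⟨fun t ht => ?_, fun t ht => ?_⟩
    · have h1 := ha _ (hb t ht)
      have e : a * b * t * (a * b)⁻¹ = a * (b * t * b⁻¹) * a⁻¹ := by group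
      rw [e]
      exact h1
    · have h1 := hb' _ (ha' t ht)
      have e : (a * b)⁻¹ * t * (a * b) = b⁻¹ * (a⁻¹ * t * a) * b := by group
      rw [e]
      exact h1
  one_mem' := ⟨fun t ht => by simpa using ht, fun t ht => by simpa using ht⟩
  inv_mem' := by
    rintro a ⟨ha, ha'⟩
    refine ⟨fun t ht => ?_, fun t ht => ?_⟩
    · simpa using ha' t ht
    · simpa using ha t ht

private theorem csb_card [Finite G] {N T : Subgroup G} (hN : MinNormal N) (hT : MinIn N T)
    (s : Finset G) : Nat.card (⨆ g ∈ s, cj g T : Subgroup G) ∣ Nat.card T ^ s.card := by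
  classical
  induction s using Finset.induction_on with
  | empty =>
    have e : (⨆ g ∈ (∅ : Finset G), cj g T : Subgroup G) = ⊥ := by simp
    rw [e]
    simp
  | insert a s ha ih =>
    have e : (⨆ g ∈ insert a s, cj g T : Subgroup G) = cj a T ⊔ ⨆ g ∈ s, cj g T :=
      Finset.iSup_insert a s _
    rw [e, Finset.card_insert_of_notMem ha, pow_succ]
    have hle : (⨆ g ∈ s, cj g T : Subgroup G) ≤ N :=
      iSup₂_le fun g _ => (cj_min hN.1 hT g).1
    have hnb : NormBy (⨆ g ∈ s, cj g T : Subgroup G) (cj a T) := fun x hx t ht =>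
      (cj_min hN.1 hT a).2.2.1 x (hle hx) t ht
    have h1 := card_sup hnb
    rw [card_cj] at h1
    have h2 : Nat.card (cj a T ⊔ ⨆ g ∈ s, cj g T : Subgroup G) ∣
        Nat.card T * Nat.card (⨆ g ∈ s, cj g T : Subgroup G) := ⟨_, h1.symm⟩
    refine h2.trans ?_
    rw [mul_comm]
    exact Nat.mul_dvd_mul_right ih _

theorem caseB [Finite G] {H N T : Subgroup G} (hP : Prim H) (hN : MinNormal N)
    (hNH : N ⊔ H = ⊤) (hT : MinIn N T) (hC : Subgroup.centralizer (N : Set G) = ⊥)
    (h2 : ¬ 2 ∣ H.index) (h3 : 3 ∣ H.index) (h9 : ¬ 9 ∣ H.index)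
    (hD : ∀ g : G, (N ⊓ H) ⊔ cen N (cj g T) = N) : False := by
  classical
  have hDT := hD 1
  rw [csb_one] at hDT
  -- `T ⊓ H` is normalised by `N`
  have hnb : NormBy N (T ⊓ H) := by
    have hle : N ≤ csbNz (T ⊓ H) := by
      rw [← hDT]
      refine sup_le ?_ ?_
      · rintro g ⟨hgN, hgH⟩
        refine ⟨fun t ht => ⟨hT.2.2.1 g hgN t ht.1,
          H.mul_mem (H.mul_mem hgH ht.2) (H.inv_mem hgH)⟩, fun t ht => ⟨?_,
          H.mul_mem (H.mul_mem (H.inv_mem hgH) ht.2) hgH⟩⟩
        have h1 := hT.2.2.1 g⁻¹ (N.inv_mem hgN) t ht.1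
        rwa [inv_inv] at h1
      · rintro g ⟨_, hgC⟩
        have hc : ∀ t ∈ T, t * g = g * t := fun t ht =>
          Subgroup.mem_centralizer_iff.1 hgC t ht
        refine ⟨fun t ht => ?_, fun t ht => ?_⟩
        · have e : g * t * g⁻¹ = t := by
            rw [← hc t ht.1, mul_inv_cancel_right]
          rw [e]
          exact ht
        · have e : g⁻¹ * t * g = t := by
            rw [mul_assoc, hc t ht.1, inv_mul_cancel_left]
          rw [e]
          exact ht
    intro g hg t ht
    exact (hle hg).1 t ht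
  rcases hT.2.2.2 (T ⊓ H) inf_le_left hnb with hbot | htop
  · -- `T ⊓ H = ⊥`
    have h1 : NormBy (N ⊓ H) T := fun g hg t ht => hT.2.2.1 g hg.1 t ht
    have hcs := card_sup h1
    have h4 : Nat.card (T ⊓ (N ⊓ H) : Subgroup G) = 1 := by
      have h5 : (T ⊓ (N ⊓ H) : Subgroup G) = ⊥ := by
        rw [eq_bot_iff, ← hbot]
        exact le_inf inf_le_left (inf_le_right.trans inf_le_right)
      rw [h5]
      exact Subgroup.card_bot
    rw [h4, mul_one] at hcs
    have h5 : Nat.card (T ⊔ (N ⊓ H) : Subgroup G) ∣ Nat.card N :=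
      Subgroup.card_dvd_of_le (sup_le hT.1 inf_le_left)
    rw [hcs, idx_prim hN.1 hNH] at h5
    have hTd : Nat.card T ∣ H.index := Nat.dvd_of_mul_dvd_mul_right Nat.card_pos h5
    have hT2 : ¬ 2 ∣ Nat.card T := fun h => h2 (h.trans hTd)
    have hT9 : ¬ 9 ∣ Nat.card T := fun h => h9 (h.trans hTd)
    by_cases hT3 : 3 ∣ Nat.card T
    · have hc3 : Nat.card T = 3 := by
        refine tr_min (N := T) (S := (N : Set G)) (fun g hg x hx => hT.2.2.1 g hg x hx)
          (fun K hK hn => hT.2.2.2 K hK hn) hT2 hT3 hT9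
      have hcyc : IsCyclic T := by
        haveI : Fact (Nat.Prime 3) := ⟨Nat.prime_three⟩
        exact isCyclic_of_prime_card (p := 3) hc3
      have hcomm : ∀ a b : T, a * b = b * a := fun a b => by
        letI : CommGroup T := IsCyclic.commGroup
        exact mul_comm a b
      have hTc : T ≤ cen N T := by
        intro t ht
        refine ⟨hT.1 ht, Subgroup.mem_centralizer_iff.2 fun s hs => ?_⟩
        have h6 := hcomm ⟨s, hs⟩ ⟨t, ht⟩
        exact congrArg Subtype.val h6
      have hNc : cen N T = N := by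
        have h6 := sup_cen hN hT
        rwa [sup_eq_right.2 hTc] at h6
      have hTN : T ≤ Subgroup.centralizer (N : Set G) := by
        intro t ht
        refine Subgroup.mem_centralizer_iff.2 fun n hn => ?_
        have h6 : n ∈ cen N T := by
          rw [hNc]
          exact hn
        exact (Subgroup.mem_centralizer_iff.1 h6.2 t ht).symm
      rw [hC] at hTN
      exact hT.2.1 (le_bot_iff.1 hTN)
    · haveI : Fintype G := Fintype.ofFinite G
      have h6 := csb_card hN hT (Finset.univ : Finset G)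
      have h7 : (⨆ g ∈ (Finset.univ : Finset G), cj g T : Subgroup G) = N := by
        rw [← sup_cj hN hT]
        simp
      rw [h7] at h6
      have h8 : 3 ∣ Nat.card N := by
        rw [idx_prim hN.1 hNH]
        exact Dvd.dvd.mul_right h3 _
      exact hT3 (Nat.prime_three.dvd_of_dvd_pow (h8.trans h6))
  · -- `T ≤ H`
    have hTH : T ≤ H := by
      rw [← htop]
      exact inf_le_right
    have hNH' : N ≤ H := by
      rw [← sup_cj hN hT]
      refine iSup_le fun g => ?_
      obtain ⟨a, ha, hg⟩ := cj_H hN.1 hNH hT g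
      rw [hg]
      intro x hx
      rw [mem_cj] at hx
      have h6 := H.mul_mem (H.mul_mem ha (hTH hx)) (H.inv_mem ha)
      have e : a * (a⁻¹ * x * a) * a⁻¹ = x := by group
      rwa [e] at h6
    exact hN.2.1 (hP.core N hN.1 hNH')

end Pool.Agent.Lib.MP_0a3911_co.AS
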