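import Pool.Agent.Lib.MP_0a3911_co.AS.Cen
import Pool.Agent.Lib.MP_0a3911_co.AS.CsA
import Pool.Agent.Lib.MP_0a3911_co.AS.CsB

/-!
# AS-Asm: almost simple groups

PROOF of `minIn_eq`.  Suppose `T ≠ N`.  `hNH : N ⊔ H = ⊤` (`max`, `core`, `N ≠ ⊥`).  Let `D` be the subgroup of the `x ∈ N` with
`x ∈ (N ⊓ H) ⊔ cen N (cj g T)` for all `g` (an infimum).  `N ⊓ H ≤ D`.  `D` is normalised by `H`: for `a ∈ H`,
`cj a ((N ⊓ H) ⊔ cen N (cj g T)) = (N ⊓ H) ⊔ cen N (cj (a g) T)` (`cj_cen`, `cj_mul`).  If `D ≤ H`: `caseA` gives `9 ∣ H.index`, a contradiction.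
Otherwise `D ⊔ H = ⊤` (`max`), and `D` is normalised by `D` and `H`, so it is normal in `G`, `D ≠ ⊥`, `D ≤ N`, so `D = N` and
all `(N ⊓ H) ⊔ cen N (cj g T) = N`: `caseB`.
PROOF of `almost_simple`.  `G` is not trivial (`H.index ≠ 1` as `3 ∣ H.index`), so there is a minimal normal subgroup `N` (finite group,
take a nontrivial normal subgroup of least cardinality).  `cen_bot`.  A normal subgroup `K ≠ ⊥` of the group `N`: its image `K'` in `G` is `≤ N`
and normalised by `N`; a `T ≤ K'` with `MinIn N T` exists (least cardinality among the nontrivial subgroups of `K'` normalised by `N`), and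
`T = N` by `minIn_eq`, so `K' = N`.  `N` is not commutative: otherwise `N ≤ centralizer N = ⊥`.
-/

set_option autoImplicit false

namespace Pool.Agent.Lib.MP_0a3911_co.AS

variable {G : Type*} [Group G]

private theorem Asm_conj {H N T : Subgroup G} (hN : N.Normal) {a : G} (ha : a ∈ H) (g : G) {x : G}
    (hx : x ∈ (N ⊓ H) ⊔ cen N (cj (a⁻¹ * g) T)) : a * x * a⁻¹ ∈ (N ⊓ H) ⊔ cen N (cj g T) := by
  have h1 : a * x * a⁻¹ ∈ cj a ((N ⊓ H) ⊔ cen N (cj (a⁻¹ * g) T)) := by
    rw [mem_cj]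
    have e : a⁻¹ * (a * x * a⁻¹) * a = x := by group
    rw [e]
    exact hx
  have h2 : cj a ((N ⊓ H) ⊔ cen N (cj (a⁻¹ * g) T)) = cj a (N ⊓ H) ⊔ cen N (cj g T) := by
    have e1 : cj a ((N ⊓ H) ⊔ cen N (cj (a⁻¹ * g) T)) =
        cj a (N ⊓ H) ⊔ cj a (cen N (cj (a⁻¹ * g) T)) := by
      unfold cj
      exact Subgroup.map_sup _ _ _
    rw [e1, cj_cen hN, ← cj_mul, mul_inv_cancel_left]
  have h3 : cj a (N ⊓ H) ≤ N ⊓ H := by
    intro y hy
    rw [mem_cj, Subgroup.mem_inf] at hy
    have e : y = a * (a⁻¹ * y * a) * a⁻¹ := by group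
    rw [Subgroup.mem_inf]
    constructor
    · rw [e]
      exact hN.conj_mem _ hy.1 a
    · rw [e]
      exact H.mul_mem (H.mul_mem ha hy.2) (H.inv_mem ha)
  rw [h2] at h1
  exact (sup_le_sup_right h3 _) h1

theorem minIn_eq [Finite G] {H N T : Subgroup G} (hP : Prim H) (h2 : ¬ 2 ∣ H.index)
    (h3 : 3 ∣ H.index) (h9 : ¬ 9 ∣ H.index) (hn : H.index ≠ 3) (hN : MinNormal N)
    (hT : MinIn N T) : T = N := by
  by_contra hne
  have hNn : N.Normal := hN.1
  have hNH : N ⊔ H = ⊤ := by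
    rcases hP.max (N ⊔ H) le_sup_right with h | h
    · exact absurd (hP.core N hN.1 (h ▸ le_sup_left)) hN.2.1
    · exact h
  obtain ⟨D, hDdef⟩ : ∃ D : Subgroup G, D = N ⊓ ⨅ g : G, ((N ⊓ H) ⊔ cen N (cj g T)) := ⟨_, rfl⟩
  have hmem : ∀ x, x ∈ D ↔ x ∈ N ∧ ∀ g : G, x ∈ (N ⊓ H) ⊔ cen N (cj g T) := by
    intro x
    rw [hDdef, Subgroup.mem_inf, Subgroup.mem_iInf]
  have hconj : ∀ a ∈ H, ∀ x ∈ D, a * x * a⁻¹ ∈ D := by
    intro a ha x hx
    rw [hmem] at hx ⊢
    exact ⟨hNn.conj_mem _ hx.1 a, fun g => Asm_conj hNn ha g (hx.2 (a⁻¹ * g))⟩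
  by_cases hDH : D ≤ H
  · exact h9 (caseA hN hNH hT hne (fun x hx hg => hDH ((hmem x).2 ⟨hx, hg⟩)) h3)
  · have hDH2 : D ⊔ H = ⊤ := by
      rcases hP.max (D ⊔ H) le_sup_right with h | h
      · exact absurd (h ▸ le_sup_left) hDH
      · exact h
    have hDn : D.Normal := by
      refine ⟨fun x hx g => ?_⟩
      have hg : g ∈ D ⊔ H := by
        rw [hDH2]
        exact Subgroup.mem_top g
      have key : ∀ g ∈ D ⊔ H, ∀ x ∈ D, g * x * g⁻¹ ∈ D := by
        intro g hg
        rw [Subgroup.sup_eq_closure] at hg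
        induction hg using Subgroup.closure_induction with
        | mem y hy =>
          intro x hx
          rcases hy with hy | hy
          · exact D.mul_mem (D.mul_mem hy hx) (D.inv_mem hy)
          · exact hconj y hy x hx
        | one =>
          intro x hx
          simpa using hx
        | mul y z _ _ hy hz =>
          intro x hx
          have e : y * z * x * (y * z)⁻¹ = y * (z * x * z⁻¹) * y⁻¹ := by group
          rw [e]
          exact hy _ (hz _ hx)
        | inv y _ hy =>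
          intro x hx
          -- conjugation by `y` is an injective map of the finite set `D` to itself
          have hinj : Function.Injective (fun d : D => (⟨y * d.1 * y⁻¹, hy d.1 d.2⟩ : D)) := by
            intro d d' hdd
            have h := congrArg Subtype.val hdd
            have h' : y * d.1 * y⁻¹ = y * d'.1 * y⁻¹ := h
            have h'' := mul_right_cancel h'
            exact Subtype.ext (mul_left_cancel h'')
          obtain ⟨d, hd⟩ := (Finite.injective_iff_surjective.1 hinj) ⟨x, hx⟩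
          have h := congrArg Subtype.val hd
          have h' : y * d.1 * y⁻¹ = x := h
          have e : y⁻¹ * x * y⁻¹⁻¹ = d.1 := by
            rw [← h']
            group
          rw [e]
          exact d.2
      exact key g hg x hx
    have hDne : D ≠ ⊥ := by
      intro h
      exact hDH (h ▸ bot_le)
    have hDN : D = N := by
      rcases hN.2.2 D hDn (by rw [hDdef]; exact inf_le_left) with h | h
      · exact absurd h hDne
      · exact h
    refine caseB hP hN hNH hT (cen_bot hP h2 h3 h9 hn hN) h2 h3 h9 (fun g => le_antisymm ?_ ?_)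
    · exact sup_le inf_le_left (by unfold cen; exact inf_le_left)
    · intro x hx
      rw [← hDN] at hx
      exact ((hmem x).1 hx).2 g

theorem almost_simple [Finite G] {H : Subgroup G} (hP : Prim H) (h2 : ¬ 2 ∣ H.index)
    (h3 : 3 ∣ H.index) (h9 : ¬ 9 ∣ H.index) (hn : H.index ≠ 3) :
    ∃ N : Subgroup G, N.Normal ∧ IsSimpleGroup N ∧ (¬ ∀ x ∈ N, ∀ y ∈ N, x * y = y * x) ∧
      Subgroup.centralizer (N : Set G) = ⊥ := by
  have htop : (⊤ : Subgroup G) ≠ ⊥ := by
    intro h
    have h1 : H = ⊤ := by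
      rw [eq_top_iff, h]
      exact bot_le
    rw [h1, Subgroup.index_top] at h3
    omega
  obtain ⟨N, hNmin⟩ := (Set.toFinite {K : Subgroup G | K.Normal ∧ K ≠ ⊥}).exists_minimal
    ⟨⊤, ⟨inferInstance, htop⟩⟩
  have hNn : N.Normal := hNmin.prop.1
  have hN : MinNormal N := by
    refine ⟨hNmin.prop.1, hNmin.prop.2, fun K hK hKN => ?_⟩
    by_cases hb : K = ⊥
    · exact Or.inl hb
    · exact Or.inr (le_antisymm hKN (hNmin.le_of_le ⟨hK, hb⟩ hKN))
  have hC := cen_bot hP h2 h3 h9 hn hN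
  refine ⟨N, hNn, ?_, ?_, hC⟩
  · have hnt : Nontrivial N := (Subgroup.nontrivial_iff_ne_bot N).2 hN.2.1
    refine ⟨fun K hK => ?_⟩
    by_cases hb : K = ⊥
    · exact Or.inl hb
    right
    have hK' : NormBy N (K.map N.subtype) := by
      rintro g hg _ ⟨k, hk, rfl⟩
      exact ⟨⟨g, hg⟩ * k * ⟨g, hg⟩⁻¹, hK.conj_mem k hk ⟨g, hg⟩, rfl⟩
    have hKb : K.map N.subtype ≠ ⊥ := by
      intro h
      exact hb ((Subgroup.map_eq_bot_iff_of_injective K N.subtype_injective).1 h)
    obtain ⟨T, hTmin⟩ := (Set.toFinite {T : Subgroup G | T ≤ K.map N.subtype ∧ T ≠ ⊥ ∧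
      NormBy N T}).exists_minimal ⟨K.map N.subtype, ⟨le_rfl, hKb, hK'⟩⟩
    have hTN : T ≤ N := hTmin.prop.1.trans (Subgroup.map_subtype_le K)
    have hT : MinIn N T := by
      refine ⟨hTN, hTmin.prop.2.1, hTmin.prop.2.2, fun L hL hLn => ?_⟩
      by_cases hLb : L = ⊥
      · exact Or.inl hLb
      · exact Or.inr (le_antisymm hL (hTmin.le_of_le ⟨hL.trans hTmin.prop.1, hLb, hLn⟩ hL))
    have hTe := minIn_eq hP h2 h3 h9 hn hN hT
    rw [eq_top_iff]
    intro x _
    have hx : (x : G) ∈ K.map N.subtype := by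
      apply hTmin.prop.1
      rw [hTe]
      exact x.2
    obtain ⟨k, hk, hkx⟩ := hx
    have : k = x := Subtype.ext hkx
    rw [← this]
    exact hk
  · intro hcomm
    have h1 : N ≤ Subgroup.centralizer (N : Set G) := by
      intro x hx
      rw [Subgroup.mem_centralizer_iff]
      intro y hy
      exact hcomm y hy x hx
    rw [hC] at h1
    exact hN.2.1 (le_bot_iff.1 h1)

end Pool.Agent.Lib.MP_0a3911_co.AS
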