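import Pool.Agent.Lib.MP_0a3911_co.AS.Tr
import Pool.Agent.Lib.MP_0a3911_co.AS.Idx

/-!
# AS-Cen: a minimal normal subgroup has trivial centralizer

PROOF.  Let `C` be the centralizer of `N`, a normal subgroup, and suppose `C ≠ ⊥`.  `N` and `C` are not contained in `H` (`core`),
so `N ⊔ H = ⊤` and `C ⊔ H = ⊤` (`max`).  `N ⊓ H` is normalised by `H` and by `C` (which centralizes it), so by
`C ⊔ H = ⊤` it is normal in `G` (the set of `g` with `g (N ⊓ H) g⁻¹ = N ⊓ H` is a subgroup, the normalizer); so `N ⊓ H = ⊥`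
(`core`) and `|N| = H.index` (`idx_prim`).  `tr_min` with `S = univ` gives `|N| = 3`, so `H.index = 3`, a contradiction.
-/

set_option autoImplicit false

namespace Pool.Agent.Lib.MP_0a3911_co.AS

variable {G : Type*} [Group G]

theorem cen_bot [Finite G] {H N : Subgroup G} (hP : Prim H) (h2 : ¬ 2 ∣ H.index)
    (h3 : 3 ∣ H.index) (h9 : ¬ 9 ∣ H.index) (hn : H.index ≠ 3) (hN : MinNormal N) :
    Subgroup.centralizer (N : Set G) = ⊥ := by
  obtain ⟨hNn, hNb, hNm⟩ := hN
  by_contra hC
  have hCn : (Subgroup.centralizer (N : Set G)).Normal := by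
    refine ⟨fun c hc g => ?_⟩
    rw [Subgroup.mem_centralizer_iff] at hc ⊢
    intro n hn
    have h1 : g⁻¹ * n * g ∈ N := by
      have := hNn.conj_mem n hn g⁻¹
      rwa [inv_inv] at this
    have h2 := hc _ h1
    calc n * (g * c * g⁻¹) = g * ((g⁻¹ * n * g) * c) * g⁻¹ := by group
      _ = g * (c * (g⁻¹ * n * g)) * g⁻¹ := by rw [h2]
      _ = g * c * g⁻¹ * n := by group
  have hNH : N ⊔ H = ⊤ := by
    rcases hP.max (N ⊔ H) le_sup_right with h | h
    · exfalso
      apply hNb
      apply hP.core N hNn
      rw [← h]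
      exact le_sup_left
    · exact h
  have hCH : Subgroup.centralizer (N : Set G) ⊔ H = ⊤ := by
    rcases hP.max (Subgroup.centralizer (N : Set G) ⊔ H) le_sup_right with h | h
    · exfalso
      apply hC
      apply hP.core _ hCn
      rw [← h]
      exact le_sup_left
    · exact h
  have hM : (N ⊓ H : Subgroup G).Normal := by
    rw [← Subgroup.normalizer_eq_top_iff, ← top_le_iff, ← hCH, sup_le_iff]
    constructor
    · intro c hc
      rw [Subgroup.mem_centralizer_iff] at hc
      rw [Subgroup.mem_normalizer_iff]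
      have h1 : ∀ n ∈ N, c * n * c⁻¹ = n := by
        intro n hn
        rw [← hc n hn, mul_inv_cancel_right]
      have h2 : ∀ n ∈ N, c⁻¹ * n * c = n := by
        intro n hn
        rw [mul_assoc, hc n hn, inv_mul_cancel_left]
      intro x
      constructor
      · intro hx
        rw [h1 x (Subgroup.mem_inf.1 hx).1]
        exact hx
      · intro hx
        have h3 := h2 _ (Subgroup.mem_inf.1 hx).1
        have h4 : c⁻¹ * (c * x * c⁻¹) * c = x := by group
        rw [h4] at h3
        rw [h3]
        exact hx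
    · intro g hg
      rw [Subgroup.mem_normalizer_iff]
      intro x
      rw [Subgroup.mem_inf, Subgroup.mem_inf]
      constructor
      · rintro ⟨h1, h2⟩
        exact ⟨hNn.conj_mem x h1 g, H.mul_mem (H.mul_mem hg h2) (H.inv_mem hg)⟩
      · rintro ⟨h1, h2⟩
        have h3 : x = g⁻¹ * (g * x * g⁻¹) * g := by group
        constructor
        · rw [h3]
          have := hNn.conj_mem _ h1 g⁻¹
          rwa [inv_inv] at this
        · rw [h3]
          exact H.mul_mem (H.mul_mem (H.inv_mem hg) h2) hg
  have hMb : (N ⊓ H : Subgroup G) = ⊥ := hP.core _ hM inf_le_right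
  have hcard : Nat.card N = H.index := by
    rw [idx_prim hNn hNH, hMb, Subgroup.card_bot, mul_one]
  have h3' : Nat.card N = 3 := by
    refine tr_min (S := Set.univ) (fun g _ x hx => hNn.conj_mem x hx g) ?_ ?_ ?_ ?_
    · intro K hK hK'
      exact hNm K ⟨fun x hx g => hK' g (Set.mem_univ g) x hx⟩ hK
    · rw [hcard]
      exact h2
    · rw [hcard]
      exact h3
    · rw [hcard]
      exact h9
  exact hn (hcard ▸ h3')

end Pool.Agent.Lib.MP_0a3911_co.AS
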