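import Mathlib

/-!
# AS: primitive groups of degree `3 m`, `m` odd and prime to 3: definitions

Purely group theoretic: `H` is a maximal subgroup of the finite group `G`, core-free (`Prim H`), of odd index `n`
with `3 ∣ n`, `9 ∤ n`, `n ≠ 3`.  Aim: `G` is almost simple.
-/

set_option autoImplicit false

namespace Pool.Agent.Lib.MP_0a3911_co.AS

variable {G : Type*} [Group G]

/-- `H` is maximal (or everything) and contains no nontrivial normal subgroup. -/
structure Prim (H : Subgroup G) : Prop where
  max : ∀ K : Subgroup G, H ≤ K → K = H ∨ K = ⊤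
  core : ∀ N : Subgroup G, N.Normal → N ≤ H → N = ⊥

/-- minimal normal subgroups -/
def MinNormal (N : Subgroup G) : Prop :=
  N.Normal ∧ N ≠ ⊥ ∧ ∀ K : Subgroup G, K.Normal → K ≤ N → K = ⊥ ∨ K = N

/-- `T` is invariant under conjugation by the elements of `N` -/
def NormBy (N T : Subgroup G) : Prop := ∀ g ∈ N, ∀ t ∈ T, g * t * g⁻¹ ∈ T

/-- minimal among the nontrivial subgroups of `N` which are normal in `N` -/
def MinIn (N T : Subgroup G) : Prop :=
  T ≤ N ∧ T ≠ ⊥ ∧ NormBy N T ∧ ∀ K : Subgroup G, K ≤ T → NormBy N K → K = ⊥ ∨ K = T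

/-- the centralizer of `T` in `N` -/
def cen (N T : Subgroup G) : Subgroup G := N ⊓ Subgroup.centralizer (T : Set G)

/-- the conjugate `g T g⁻¹` -/
def cj (g : G) (T : Subgroup G) : Subgroup G := T.map (MulAut.conj g).toMonoidHom

end Pool.Agent.Lib.MP_0a3911_co.AS
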