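import Pool.Agent.Lib.MP_0a3911_co.AS.Defs

/-!
# AS-Tr: groups of odd order `3 m`, `3 ∤ m`

PROOF of `tr`.  The least prime factor of `|P|` is 3.  A Sylow 3-subgroup `S` has order 3 (`9 ∤ |P|`), so it is cyclic, and
`IsCyclic.isComplement'` (Mathlib, `GroupTheory/Transfer.lean`; `(Nat.card P).minFac = 3`) gives a normal complement
`K = ker (transferSylow ..)`: `|K| * 3 = |P|`, `K.index = 3`, `3 ∤ |K|` (`not_dvd_card_ker_transferSylow`, or from the orders).
If `g ∈ K` then `orderOf g ∣ |K|`.  If `3 ∤ orderOf g` then the image of `g` in `P ⧸ K` (order 3) has order dividing 3 and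
`orderOf g`, so it is trivial.
PROOF of `tr_min`.  Apply `tr` to the group `N`; let `K` be the image in `G`: `K ≤ N`, `g ∈ K ↔ 3 ∤ orderOf g` for `g ∈ N`,
`|N| = 3 |K|`.  `K` is invariant under conjugation by `S` (conjugation preserves the order).  `K = N` is impossible
(`|N| = 3 |K|`, `|N| > 0`), so `K = ⊥` and `|N| = 3`.
-/

set_option autoImplicit false

namespace Pool.Agent.Lib.MP_0a3911_co.AS

theorem tr {P : Type*} [Group P] [Finite P] (h2 : ¬ 2 ∣ Nat.card P) (h3 : 3 ∣ Nat.card P)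
    (h9 : ¬ 9 ∣ Nat.card P) :
    ∃ K : Subgroup P, (∀ g, g ∈ K ↔ ¬ 3 ∣ orderOf g) ∧ K.index = 3 := by
  have hn1 : Nat.card P ≠ 1 := fun h => by
    rw [h] at h3
    omega
  have hmf : (Nat.card P).minFac = 3 := by
    have e1 := Nat.minFac_prime hn1
    have e2 := Nat.minFac_le_of_dvd (by omega : 2 ≤ 3) h3
    have e3 := Nat.minFac_dvd (Nat.card P)
    have e4 := e1.two_le
    have e5 : (Nat.card P).minFac ≠ 2 := fun h => h2 (h ▸ e3)
    omega
  have hf3 : Fact (Nat.Prime 3) := ⟨Nat.prime_three⟩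
  obtain ⟨S⟩ : Nonempty (Sylow 3 P) := inferInstance
  have hcm : Nat.card S * (S : Subgroup P).index = Nat.card P := Subgroup.card_mul_index _
  have hcard : Nat.card S = 3 := by
    obtain ⟨k, hk⟩ := S.2.exists_card_eq
    have e1 : 3 ∣ Nat.card S := by
      have e2 : 3 ∣ Nat.card S * (S : Subgroup P).index := by
        rw [hcm]
        exact h3
      exact (Nat.prime_three.dvd_mul.1 e2).resolve_right S.not_dvd_index
    have hk2 : Nat.card S = 3 ^ k := hk
    rcases Nat.lt_or_ge k 2 with hk' | hk'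
    · interval_cases k
      · rw [hk2] at e1
        omega
      · rw [hk2, pow_one]
    · exfalso
      apply h9
      have e3 : (9 : ℕ) ∣ 3 ^ k := by
        have e4 : (9 : ℕ) = 3 ^ 2 := by norm_num
        rw [e4]
        exact pow_dvd_pow 3 hk'
      rw [← hcm, hk2]
      exact Dvd.dvd.mul_right e3 _
  have hcyc : IsCyclic S := isCyclic_of_prime_card (p := 3) hcard
  have hcomp := IsCyclic.isComplement' hmf hcyc
  obtain ⟨K, hKdef⟩ : ∃ K : Subgroup P,
      K = (MonoidHom.transferSylow S (hcyc.normalizer_le_centralizer hmf)).ker := ⟨_, rfl⟩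
  have hKn : K.Normal := by
    rw [hKdef]
    infer_instance
  rw [← hKdef] at hcomp
  have hidx : K.index = 3 := by
    rw [hcomp.symm.index_eq_card]
    exact hcard
  have hKc : ¬ 3 ∣ Nat.card K := by
    intro h
    apply h9
    have e1 := Subgroup.card_mul_index K
    rw [hidx] at e1
    obtain ⟨c, hc⟩ := h
    rw [← e1, hc]
    exact ⟨c, by ring⟩
  refine ⟨K, fun g => ⟨fun hg h => ?_, fun h => ?_⟩, hidx⟩
  · apply hKc
    have e1 : orderOf (⟨g, hg⟩ : K) ∣ Nat.card K := orderOf_dvd_natCard _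
    have e2 : orderOf (⟨g, hg⟩ : K) = orderOf g := (Subgroup.orderOf_coe (⟨g, hg⟩ : K)).symm
    rw [e2] at e1
    exact h.trans e1
  · have e1 : g ^ 3 ∈ K := by
      have := Subgroup.pow_index_mem K g
      rw [hidx] at this
      exact this
    have e2 : Nat.Coprime 3 (orderOf g) := (Nat.Prime.coprime_iff_not_dvd Nat.prime_three).2 h
    obtain ⟨m, hm⟩ := exists_pow_eq_self_of_coprime e2
    rw [← hm]
    exact K.pow_mem e1 m

variable {G : Type*} [Group G]

theorem tr_min [Finite G] {N : Subgroup G} {S : Set G} (hS : ∀ g ∈ S, ∀ x ∈ N, g * x * g⁻¹ ∈ N)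
    (hmin : ∀ K : Subgroup G, K ≤ N → (∀ g ∈ S, ∀ x ∈ K, g * x * g⁻¹ ∈ K) → K = ⊥ ∨ K = N)
    (h2 : ¬ 2 ∣ Nat.card N) (h3 : 3 ∣ Nat.card N) (h9 : ¬ 9 ∣ Nat.card N) : Nat.card N = 3 := by
  obtain ⟨K, hK, hidx⟩ := tr h2 h3 h9
  have h := hmin (K.map N.subtype) (Subgroup.map_subtype_le K) (by
    rintro g hg x ⟨y, hy, rfl⟩
    have e1 : g * (y : G) * g⁻¹ ∈ N := hS g hg y y.2
    refine ⟨⟨g * (y : G) * g⁻¹, e1⟩, ?_, rfl⟩
    have e2 : ¬ 3 ∣ orderOf y := (hK y).1 hy
    refine (hK _).2 ?_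
    have e3 : orderOf (⟨g * (y : G) * g⁻¹, e1⟩ : N) = orderOf y := by
      have e4 : orderOf (g * (y : G) * g⁻¹) = orderOf (y : G) := by
        have e5 : g * (y : G) * g⁻¹ = MulAut.conj g (y : G) := rfl
        rw [e5]
        exact orderOf_injective (MulAut.conj g).toMonoidHom (MulAut.conj g).injective (y : G)
      have e6 := Subgroup.orderOf_coe (⟨g * (y : G) * g⁻¹, e1⟩ : N)
      have e7 := Subgroup.orderOf_coe y
      rw [← e6, ← e7]
      exact e4
    rw [e3]
    exact e2)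
  rcases h with h | h
  · have e1 : K = ⊥ := by
      rw [Subgroup.map_eq_bot_iff_of_injective _ N.subtype_injective] at h
      exact h
    rw [e1, Subgroup.index_bot] at hidx
    exact hidx
  · exfalso
    have e1 : K = ⊤ := by
      refine (Subgroup.eq_top_iff' K).2 fun y => ?_
      have e2 : (y : G) ∈ K.map N.subtype := by
        rw [h]
        exact y.2
      obtain ⟨z, hz, hzy⟩ := e2
      have e3 : z = y := Subtype.ext hzy
      rw [← e3]
      exact hz
    rw [e1, Subgroup.index_top] at hidx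
    omega

end Pool.Agent.Lib.MP_0a3911_co.AS
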